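import Mathlib

namespace Pool.Agent.Results.MP_3feef6_an.FixedPoints

open ContinuousLinearMap

universe u

variable {H : Type u} [NormedAddCommGroup H] [InnerProductSpace ℂ H] [CompleteSpace H]

/-- `V` is the partial isometry of the canonical polar decomposition of `T`: `V` is a partial
isometry (`V V* V = V`), `ker V = ker T`, and `T = V |T|`, where `|T| = (T* T)^{1/2}`. -/
def IsPolarFactor (T V : H →L[ℂ] H) : Prop :=
  V * star V * V = V ∧ (∀ x, V x = 0 ↔ T x = 0) ∧ T = V * CFC.abs T

lemma abs_apply_norm (T : H →L[ℂ] H) (x : H) : ‖CFC.abs T x‖ = ‖T x‖ := by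
  have h1 : (inner ℂ (CFC.abs T x) (CFC.abs T x)) = inner ℂ (T x) (T x) := by
    have hsa : star (CFC.abs T) = CFC.abs T :=
      (IsSelfAdjoint.of_nonneg (CFC.abs_nonneg T)).star_eq
    have h2 : star (CFC.abs T) * CFC.abs T = star T * T := by
      rw [hsa, CFC.abs_mul_abs]
    have h3 := congrArg (fun B : H →L[ℂ] H => inner ℂ (B x) x) h2
    simp only [mul_apply_eq_comp, star_eq_adjoint, adjoint_inner_left] at h3
    exact h3
  have h2 : ‖CFC.abs T x‖ ^ 2 = ‖T x‖ ^ 2 := by
    rw [← inner_self_eq_norm_sq (𝕜 := ℂ), ← inner_self_eq_norm_sq (𝕜 := ℂ), h1]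
  exact (sq_eq_sq₀ (norm_nonneg _) (norm_nonneg _)).1 h2

lemma abs_apply_eq_zero (T : H →L[ℂ] H) (x : H) : CFC.abs T x = 0 ↔ T x = 0 := by
  rw [← norm_eq_zero, abs_apply_norm, norm_eq_zero]

omit [CompleteSpace H] in
lemma ext_form (B C : H →L[ℂ] H) (h : ∀ x, inner ℂ (B x) x = inner ℂ (C x) x) : B = C := by
  have h1 := (ext_inner_map (B : H →ₗ[ℂ] H) (C : H →ₗ[ℂ] H)).1 h
  ext x
  exact congrArg (fun f : H →ₗ[ℂ] H => f x) h1

lemma exists_isPolarFactor (T : H →L[ℂ] H) : ∃ V, IsPolarFactor T V := by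
  set A := CFC.abs T with hA
  have hAsa : star A = A := (IsSelfAdjoint.of_nonneg (CFC.abs_nonneg T)).star_eq
  let K : Submodule ℂ H := (LinearMap.range (A : H →ₗ[ℂ] H)).topologicalClosure
  have hKmem : ∀ x, A x ∈ K := fun x =>
    Submodule.le_topologicalClosure _ ⟨x, rfl⟩
  have : CompleteSpace K :=
    (Submodule.isClosed_topologicalClosure _).completeSpace_coe
  let e : H →ₗ[ℂ] K := (A : H →ₗ[ℂ] H).codRestrict K hKmem
  have he : ∀ x, ((e x : K) : H) = A x := fun x => rfl
  have hdense : DenseRange e := by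
    intro y
    have hy : (y : H) ∈ closure (LinearMap.range (A : H →ₗ[ℂ] H) : Set H) := y.2
    rw [Metric.mem_closure_iff] at hy ⊢
    intro ε hε
    obtain ⟨z, ⟨x, rfl⟩, hz⟩ := hy ε hε
    exact ⟨e x, ⟨x, rfl⟩, hz⟩
  have hnorm : ∀ x, ‖(T : H →ₗ[ℂ] H) x‖ ≤ 1 * ‖e x‖ := by
    intro x
    rw [one_mul]
    change ‖T x‖ ≤ ‖A x‖
    rw [hA, abs_apply_norm]
  let V0 : K →L[ℂ] H := (T : H →ₗ[ℂ] H).extendOfNorm e
  have hV0 : ∀ x, V0 (e x) = T x := fun x =>
    LinearMap.extendOfNorm_eq hdense ⟨1, hnorm⟩ x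
  have hV0n : ∀ y : K, ‖V0 y‖ = ‖y‖ := by
    intro y
    refine hdense.induction (P := fun y => ‖V0 y‖ = ‖y‖) ?_
      (isClosed_eq (by fun_prop) (by fun_prop)) y
    rintro y ⟨x, rfl⟩
    rw [hV0]
    change ‖T x‖ = ‖A x‖
    rw [hA, abs_apply_norm]
  let V : H →L[ℂ] H := V0 ∘L K.orthogonalProjectionOnto
  have hVV : star V * V = K.starProjection := by
    apply ext_form
    intro x
    have h1 : inner ℂ ((star V * V) x) x = inner ℂ (V x) (V x) := by
      simp only [mul_apply_eq_comp, star_eq_adjoint, adjoint_inner_left]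
    have h2 : inner ℂ (K.starProjection x) x
        = inner ℂ (K.starProjection x) (K.starProjection x) := by
      rw [← Submodule.inner_starProjection_left_eq_right, ← mul_apply_eq_comp]
      congr 2
      exact (K.isIdempotentElem_starProjection).symm
    rw [h1, h2, inner_self_eq_norm_sq_to_K, inner_self_eq_norm_sq_to_K]
    congr 2
    exact hV0n _
  have hVP : ∀ x, V (K.starProjection x) = V x := by
    intro x
    change V0 _ = V0 _
    congr 1
    rw [Submodule.starProjection_apply]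
    exact Submodule.orthogonalProjectionOnto_mem_subspace_eq_self (K := K) _
  refine ⟨V, ?_, ?_, ?_⟩
  · rw [mul_assoc, hVV]
    ext x
    exact hVP x
  · intro x
    have h1 : V x = 0 ↔ K.orthogonalProjectionOnto x = 0 := by
      rw [← norm_eq_zero, ← norm_eq_zero (a := K.orthogonalProjectionOnto x)]
      change ‖V0 _‖ = 0 ↔ _
      rw [hV0n]
      exact Iff.rfl
    rw [h1, Submodule.orthogonalProjectionOnto_eq_zero_iff, ← abs_apply_eq_zero T x, ← hA]
    constructor
    · intro h
      rw [Submodule.mem_orthogonal] at h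
      have h2 := h _ (hKmem (A x))
      rw [← inner_self_eq_zero (𝕜 := ℂ)]
      rw [← adjoint_inner_right, ← star_eq_adjoint, hAsa, ← inner_conj_symm, h2, map_zero]
    · intro h
      have h2 : x ∈ (LinearMap.range (A : H →ₗ[ℂ] H))ᗮ := by
        rw [Submodule.mem_orthogonal]
        rintro _ ⟨y, rfl⟩
        change inner ℂ (A y) x = 0
        rw [← adjoint_inner_right, ← star_eq_adjoint, hAsa, h, inner_zero_right]
      rwa [← Submodule.orthogonal_closure] at h2
  · ext x
    change T x = V0 (K.orthogonalProjectionOnto (A x))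
    rw [← hV0]
    congr 1
    exact (Submodule.orthogonalProjectionOnto_mem_subspace_eq_self (e x)).symm

lemma IsPolarFactor.initial {T V : H →L[ℂ] H} (h : IsPolarFactor T V) :
    CFC.abs T * (1 - star V * V) = 0 := by
  ext x
  rw [mul_apply_eq_comp, zero_apply, abs_apply_eq_zero, ← h.2.1]
  have h1 : V * (1 - star V * V) = 0 := by
    rw [mul_sub, mul_one, ← mul_assoc, h.1, sub_self]
  exact congrArg (fun f : H →L[ℂ] H => f x) h1

lemma abs_sa (T : H →L[ℂ] H) : star (CFC.abs T) = CFC.abs T :=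
  (IsSelfAdjoint.of_nonneg (CFC.abs_nonneg T)).star_eq

lemma sqrt_sa (T : H →L[ℂ] H) : star (CFC.sqrt T) = CFC.sqrt T :=
  (IsSelfAdjoint.of_nonneg (CFC.sqrt_nonneg T)).star_eq

lemma IsPolarFactor.initial' {T V : H →L[ℂ] H} (h : IsPolarFactor T V) :
    star V * V * CFC.abs T = CFC.abs T := by
  have h1 := congrArg star h.initial
  rw [star_mul, star_sub, star_one, star_mul, star_star, abs_sa, star_zero, sub_mul, one_mul,
    sub_eq_zero] at h1
  exact h1.symm

lemma IsPolarFactor.initial_sqrt {T V : H →L[ℂ] H} (h : IsPolarFactor T V) :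
    star V * V * CFC.sqrt (CFC.abs T) = CFC.sqrt (CFC.abs T) := by
  have haa : CFC.sqrt (CFC.abs T) * CFC.sqrt (CFC.abs T) = CFC.abs T :=
    CFC.sqrt_mul_sqrt_self _ (CFC.abs_nonneg T)
  set a := CFC.sqrt (CFC.abs T) with ha
  have hsa : star a = a := sqrt_sa _
  have h1 : star (a * (1 - star V * V)) * (a * (1 - star V * V)) = 0 := by
    rw [star_mul, hsa, mul_assoc, ← mul_assoc a a, haa, h.initial, mul_zero]
  have h2 : a * (1 - star V * V) = 0 := (CStarRing.star_mul_self_eq_zero_iff _).1 h1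
  have h3 := congrArg star h2
  rw [star_mul, star_sub, star_one, star_mul, star_star, hsa, star_zero, sub_mul, one_mul,
    sub_eq_zero] at h3
  exact h3.symm

/-- An operator that kills the range of `|T|` and the kernel of `T` is zero. -/
lemma IsPolarFactor.eq_zero {T V X : H →L[ℂ] H} (h : IsPolarFactor T V)
    (h1 : X * CFC.abs T = 0) (h2 : ∀ x, T x = 0 → X x = 0) : X = 0 := by
  have h3 : V * star X = 0 := by
    ext y
    rw [mul_apply_eq_comp, zero_apply, h.2.1, ← abs_apply_eq_zero]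
    have h4 := congrArg star h1
    rw [star_mul, abs_sa, star_zero] at h4
    exact congrArg (fun f : H →L[ℂ] H => f y) h4
  have h4 : X * star V = 0 := by
    have h5 := congrArg star h3
    rwa [star_mul, star_star, star_zero] at h5
  have h5 : X * (1 - star V * V) = 0 := by
    ext x
    rw [mul_apply_eq_comp, zero_apply]
    apply h2
    rw [← h.2.1]
    have h1 : V * (1 - star V * V) = 0 := by
      rw [mul_sub, mul_one, ← mul_assoc, h.1, sub_self]
    exact congrArg (fun f : H →L[ℂ] H => f x) h1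
  rw [mul_sub, mul_one, ← mul_assoc, h4, zero_mul, sub_zero] at h5
  exact h5

lemma IsPolarFactor.unique {T V W : H →L[ℂ] H} (hV : IsPolarFactor T V)
    (hW : IsPolarFactor T W) : V = W := by
  rw [← sub_eq_zero]
  apply hV.eq_zero
  · rw [sub_mul, ← hV.2.2, ← hW.2.2, sub_self]
  · intro x hx
    rw [sub_apply, (hV.2.1 x).2 hx, (hW.2.1 x).2 hx, sub_self]

/-- The quadratic form of an operator. -/
noncomputable def qf (B : H →L[ℂ] H) (x : H) : ℝ := (inner ℂ (B x) x).re

omit [CompleteSpace H] in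
lemma qf_add (B C : H →L[ℂ] H) (x : H) : qf (B + C) x = qf B x + qf C x := by
  simp [qf]

omit [CompleteSpace H] in
lemma qf_sub (B C : H →L[ℂ] H) (x : H) : qf (B - C) x = qf B x - qf C x := by
  simp [qf]

lemma qf_conj (B C : H →L[ℂ] H) (x : H) : qf (star C * B * C) x = qf B (C x) := by
  simp [qf, mul_apply_eq_comp, star_eq_adjoint, adjoint_inner_left]

lemma qf_star_mul (C : H →L[ℂ] H) (x : H) : qf (star C * C) x = ‖C x‖ ^ 2 := by
  rw [qf, mul_apply_eq_comp, star_eq_adjoint, adjoint_inner_left]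
  exact inner_self_eq_norm_sq (𝕜 := ℂ) (C x)

omit [CompleteSpace H] in
lemma qf_smul (r : ℝ) (B : H →L[ℂ] H) (x : H) : qf ((r : ℂ) • B) x = r * qf B x := by
  simp [qf]

omit [CompleteSpace H] in
lemma qf_nonneg {B : H →L[ℂ] H} (hB : 0 ≤ B) (x : H) : 0 ≤ qf B x :=
  ((nonneg_iff_isPositive B).1 hB).re_inner_nonneg_left x

omit [CompleteSpace H] in
lemma qf_le {B C : H →L[ℂ] H} (h : B ≤ C) (x : H) : qf B x ≤ qf C x := by
  have h1 := ((le_def B C).1 h).re_inner_nonneg_left x
  have h2 : 0 ≤ qf (C - B) x := h1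
  rw [qf_sub] at h2
  linarith

lemma le_of_qf {B C : H →L[ℂ] H} (hB : star B = B) (hC : star C = C)
    (h : ∀ x, qf B x ≤ qf C x) : B ≤ C := by
  rw [le_def, isPositive_def']
  refine ⟨?_, fun x => ?_⟩
  · rw [IsSelfAdjoint, star_sub, hB, hC]
  · have h1 : 0 ≤ qf (C - B) x := by
      rw [qf_sub]
      linarith [h x]
    exact h1

lemma sa_of_nonneg {B : H →L[ℂ] H} (hB : 0 ≤ B) : star B = B :=
  (IsSelfAdjoint.of_nonneg hB).star_eq

/-- The bootstrapping function. -/
lemma boot (l : ℝ) (h0 : 0 ≤ l) (h1 : l < 1) : ∃ k : ℝ, 0 < k ∧ l * k ^ 2 + k = 2 ∧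
    l ^ 2 * (1 + k) < 1 + l := by
  set r := Real.sqrt (1 + 8 * l) with hr
  have hr2 : r ^ 2 = 1 + 8 * l := Real.sq_sqrt (by linarith)
  have hr0 : 0 ≤ r := Real.sqrt_nonneg _
  refine ⟨4 / (1 + r), by positivity, ?_, ?_⟩
  · have hl : l = (r ^ 2 - 1) / 8 := by linarith
    rw [hl]
    have : (1 + r) ≠ 0 := by positivity
    field_simp
    ring
  · set k := 4 / (1 + r) with hk
    have hk0 : 0 < k := by positivity
    have hkk : l * k ^ 2 + k = 2 := by
      have hl : l = (r ^ 2 - 1) / 8 := by linarith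
      rw [hl, hk]
      have : (1 + r) ≠ 0 := by positivity
      field_simp
      ring
    by_contra hcon
    push Not at hcon
    have hl0 : 0 < l := by
      rcases h0.eq_or_lt with h | h
      · rw [← h] at hcon
        norm_num at hcon
      · exact h
    have h2 : 1 < l ^ 2 * k := by nlinarith [mul_pos hl0 (sub_pos.2 h1)]
    have h3 : 1 < k := by
      by_contra h4
      push Not at h4
      nlinarith [mul_pos hl0 hl0]
    have h5 : 1 < l * k ^ 2 := by
      have h6 : l ^ 2 * k < l * k ^ 2 := by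
        have : l * k * l < l * k * k := by
          apply mul_lt_mul_of_pos_left _ (mul_pos hl0 hk0)
          linarith
        nlinarith
      linarith
    linarith

/-- The key comparison: at a fixed point one has `|Δ(T)| = |T|`, and `W* T = |T|`. -/
theorem core (T V S W A a s : H →L[ℂ] H) (hAn : 0 ≤ A) (hasa : star a = a) (hsn : 0 ≤ s)
    (haa : a * a = A) (hAA : A * A = star T * T) (hss : s * s = star S * S)
    (hT : T = V * A) (hS : S = a * V * a) (hSW : S = W * s) (hWs : star W * W * s = s)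
    (hVA : star V * V * A = A) (hVa : star V * V * a = a) (hWp : W * star W * W = W)
    (hfix : S + s * W = (2 : ℂ) • T) :
    s = A ∧ star W * T = A := by
  have hAsa : star A = A := sa_of_nonneg hAn
  have hssa : star s = s := sa_of_nonneg hsn
  have hWS : star W * S = s := by
    rw [hSW, ← mul_assoc, hWs]
  obtain ⟨Q, hQ⟩ : ∃ Q, Q = star W * T := ⟨_, rfl⟩
  have hQ2 : (2 : ℂ) • Q = s + star W * s * W := by
    rw [hQ, ← mul_smul_comm, ← hfix, mul_add, hWS, mul_assoc]
  have hQsa : star Q = Q := by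
    have h1 := congrArg star hQ2
    have h2 : star (2 : ℂ) = 2 := by simp
    rw [star_smul, star_add, star_mul, star_mul, star_star, hssa, ← mul_assoc, ← hQ2, h2] at h1
    exact smul_right_injective _ (two_ne_zero) h1
  have hQn : 0 ≤ Q := by
    have h1 : Q = (1 / 2 : ℂ) • (s + star W * s * W) := by
      rw [← hQ2, smul_smul]
      norm_num
    have h2 : 0 ≤ s + star W * s * W := add_nonneg hsn (star_left_conjugate_nonneg hsn W)
    rw [nonneg_iff_isPositive] at h2 ⊢
    rw [h1]
    refine h2.smul_of_nonneg ?_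
    have h3 : (1 / 2 : ℂ) = ((1 / 2 : ℝ) : ℂ) := by push_cast; rfl
    rw [h3]
    exact_mod_cast (by norm_num : (0 : ℝ) ≤ 1 / 2)
  have hQA : Q ≤ A := by
    have h1 : Q * Q ≤ A * A := by
      rw [← sub_nonneg]
      have h2 : A * A - Q * Q = star ((1 - W * star W) * T) * ((1 - W * star W) * T) := by
        have h3 : (1 - W * star W) * (1 - W * star W) = 1 - W * star W := by
          have h4 : W * star W * (W * star W) = W * star W := by
            rw [← mul_assoc, hWp]
          rw [sub_mul, one_mul, mul_sub, mul_one, h4, sub_self, sub_zero]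
        have h5 : star (1 - W * star W) = 1 - W * star W := by
          rw [star_sub, star_one, star_mul, star_star]
        have h6 : Q * Q = star T * (W * star W * T) := by
          nth_rewrite 1 [← hQsa]
          rw [hQ, star_mul, star_star]
          simp only [mul_assoc]
        calc A * A - Q * Q = star T * ((1 - W * star W) * T) := by
              rw [hAA, h6, sub_mul, one_mul, mul_sub]
          _ = star T * (((1 - W * star W) * (1 - W * star W)) * T) := by rw [h3]
          _ = _ := by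
              rw [star_mul, h5]
              simp only [mul_assoc]
      rw [h2]
      exact star_mul_self_nonneg _
    have h2 := CFC.sqrt_le_sqrt _ _ h1
    rwa [CFC.sqrt_mul_self Q hQn, CFC.sqrt_mul_self A hAn] at h2
  have na : ∀ y, ‖a y‖ ^ 2 = qf A y := by
    intro y
    rw [← qf_star_mul, hasa, haa]
  have nV : ∀ x, ‖V (a x)‖ = ‖a x‖ := by
    intro x
    have h1 : ‖V (a x)‖ ^ 2 = ‖a x‖ ^ 2 := by
      rw [← qf_star_mul, ← inner_self_eq_norm_sq (𝕜 := ℂ) (a x), qf, ← mul_apply_eq_comp, hVa]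
      rfl
    exact (sq_eq_sq₀ (norm_nonneg _) (norm_nonneg _)).1 h1
  have i0 : ∀ x, qf s (W x) = 2 * qf Q x - qf s x := by
    intro x
    have h1 : qf ((2 : ℂ) • Q) x = qf (s + star W * s * W) x := by rw [hQ2]
    rw [qf_add, qf_conj] at h1
    have h2 := qf_smul 2 Q x
    push_cast at h2
    rw [h2] at h1
    linarith
  have i1 : ∀ x, qf Q x ≤ qf A x := fun x => qf_le hQA x
  have i2 : ∀ x, qf s x ≤ ‖a x‖ * ‖a (W x)‖ := by
    intro x
    have h1 : qf s x = (inner ℂ (V (a x)) (a (W x))).re := by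
      rw [qf, ← hWS, mul_apply_eq_comp, star_eq_adjoint, adjoint_inner_left, hS,
        mul_apply_eq_comp, mul_apply_eq_comp]
      nth_rewrite 1 [← hasa]
      rw [star_eq_adjoint, adjoint_inner_left]
    rw [h1]
    calc (inner ℂ (V (a x)) (a (W x))).re ≤ ‖V (a x)‖ * ‖a (W x)‖ :=
          re_inner_le_norm (𝕜 := ℂ) _ _
      _ = _ := by rw [nV]
  have i3 : ∀ x, qf s x ^ 2 ≤ qf A x * qf A (W x) := by
    intro x
    rw [← na, ← na, ← mul_pow]
    exact pow_le_pow_left₀ (qf_nonneg hsn x) (i2 x) 2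
  have ii : ∀ x, qf A x + qf s x ≤ qf s (V x) + qf A (V x) := by
    intro x
    have h1 : 0 ≤ qf s (V x - W x) := qf_nonneg hsn _
    have h2 : qf s (V x - W x) = qf s (V x) + qf s (W x)
        - 2 * (inner ℂ (s (W x)) (V x)).re := by
      have h3 : (inner ℂ (s (V x)) (W x)).re = (inner ℂ (s (W x)) (V x)).re := by
        nth_rewrite 1 [← hssa]
        rw [star_eq_adjoint, adjoint_inner_left, ← inner_conj_symm]
        exact Complex.conj_re _
      simp only [qf, map_sub, inner_sub_left, inner_sub_right, Complex.sub_re]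
      linarith
    have h3 : (inner ℂ (s (W x)) (V x)).re = 2 * qf A x
        - (inner ℂ (V (a x)) (a (V x))).re := by
      have h4 : s (W x) = (2 : ℂ) • T x - S x := by
        have h5 : (S + s * W) x = ((2 : ℂ) • T) x := by rw [hfix]
        rw [add_apply, smul_apply, mul_apply_eq_comp] at h5
        rw [← h5]
        abel
      have h5 : inner ℂ (T x) (V x) = inner ℂ (A x) x := by
        rw [hT, mul_apply_eq_comp, ← adjoint_inner_left, ← star_eq_adjoint,
          ← mul_apply_eq_comp, ← mul_apply_eq_comp, hVA]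
      have h6 : inner ℂ (S x) (V x) = inner ℂ (V (a x)) (a (V x)) := by
        rw [hS, mul_apply_eq_comp, mul_apply_eq_comp]
        nth_rewrite 1 [← hasa]
        rw [star_eq_adjoint, adjoint_inner_left]
      rw [h4, inner_sub_left, inner_smul_left, h5, h6, Complex.sub_re, qf]
      simp
    have h4 : (inner ℂ (V (a x)) (a (V x))).re ≤ ‖a x‖ * ‖a (V x)‖ := by
      rw [← nV]
      exact re_inner_le_norm (𝕜 := ℂ) _ _
    have h5 : ‖a x‖ * ‖a (V x)‖ ≤ (qf A x + qf A (V x)) / 2 := by
      rw [← na, ← na]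
      nlinarith [sq_nonneg (‖a x‖ - ‖a (V x)‖)]
    have h6 := i0 x
    have h7 := i1 x
    linarith
  have iii : ∀ x, qf (s * s) x = qf A (V (a x)) := by
    intro x
    rw [hss, qf_star_mul, hS, ← na]
    rfl
  have upper : ∀ l k : ℝ, 0 ≤ l → 0 < k → l * k ^ 2 + k = 2 →
      (∀ x, l * qf A x ≤ qf s x) → ∀ x, qf s x ≤ k * qf A x := by
    intro l k hl hk hlk hle x
    have hα := qf_nonneg hAn x
    have hσ := qf_nonneg hsn x
    have h1 := i3 x
    have h2 := hle (W x)
    have h3 := i0 x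
    have h4 := i1 x
    have h5 := qf_nonneg hsn (W x)
    by_contra hcon
    push Not at hcon
    have hσ2 : qf s x ≤ 2 * qf A x := by linarith
    have hα0 : 0 < qf A x := by
      rcases hα.eq_or_lt with h | h
      · rw [← h] at hσ2 hcon
        linarith
      · exact h
    have h6 : l * qf s x ^ 2 ≤ qf A x * (2 * qf A x - qf s x) := by
      calc l * qf s x ^ 2 ≤ l * (qf A x * qf A (W x)) := mul_le_mul_of_nonneg_left h1 hl
        _ = qf A x * (l * qf A (W x)) := by ring
        _ ≤ qf A x * (2 * qf A x - qf s x) := by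
          apply mul_le_mul_of_nonneg_left _ hα
          linarith
    have h7 : l * (k * qf A x) ^ 2 ≤ l * qf s x ^ 2 := by
      apply mul_le_mul_of_nonneg_left _ hl
      exact pow_le_pow_left₀ (by positivity) hcon.le 2
    have h8 : qf A x * (k * qf A x) < qf A x * qf s x := mul_lt_mul_of_pos_left hcon hα0
    have h9 : l * (k * qf A x) ^ 2 + qf A x * (k * qf A x) = 2 * qf A x ^ 2 := by
      rw [← hlk]
      ring
    nlinarith
  have lower : ∀ l k : ℝ, 0 ≤ l → 0 < k → (∀ x, l * qf A x ≤ qf s x) →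
      (∀ x, qf s x ≤ k * qf A x) → ∀ x, Real.sqrt ((1 + l) / (1 + k)) * qf A x ≤ qf s x := by
    intro l k hl hk hle hke x
    obtain ⟨γ, hγ⟩ : ∃ γ, γ = (1 + l) / (1 + k) := ⟨_, rfl⟩
    rw [← hγ]
    have hγ0 : 0 ≤ γ := by rw [hγ]; positivity
    have h1 : ∀ y, γ * qf A y ≤ qf A (V y) := by
      intro y
      have h2 := ii y
      have h3 := hke (V y)
      have h4 := hle y
      rw [hγ, div_mul_eq_mul_div, div_le_iff₀ (by positivity)]
      linarith
    have h4 : 0 ≤ (((Real.sqrt γ : ℝ) : ℂ) • A) := by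
      have hAn' := hAn
      rw [nonneg_iff_isPositive] at hAn' ⊢
      exact hAn'.smul_of_nonneg (by exact_mod_cast Real.sqrt_nonneg γ)
    have h2 : (((Real.sqrt γ : ℝ) : ℂ) • A) * (((Real.sqrt γ : ℝ) : ℂ) • A) ≤ s * s := by
      apply le_of_qf
      · rw [star_mul, sa_of_nonneg h4]
      · rw [star_mul, hssa]
      · intro z
        have h5 : (((Real.sqrt γ : ℝ) : ℂ) • A) * (((Real.sqrt γ : ℝ) : ℂ) • A)
            = ((γ : ℝ) : ℂ) • (A * A) := by
          rw [smul_mul_smul_comm, ← Complex.ofReal_mul, Real.mul_self_sqrt hγ0]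
        have h6 : A * A = star a * A * a := by
          rw [hasa, ← haa]
          simp only [mul_assoc]
        rw [h5, qf_smul, iii, h6, qf_conj]
        exact h1 _
    have h3 := CFC.sqrt_le_sqrt _ _ h2
    rw [CFC.sqrt_mul_self s hsn, CFC.sqrt_mul_self _ h4] at h3
    have h5 := qf_le h3 x
    rwa [qf_smul] at h5
  -- the supremum argument
  let L : Set ℝ := {l | 0 ≤ l ∧ l ≤ 1 ∧ ∀ x, l * qf A x ≤ qf s x}
  have hL0 : (0 : ℝ) ∈ L := ⟨le_rfl, zero_le_one, fun x => by
    rw [zero_mul]; exact qf_nonneg hsn x⟩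
  have hLb : BddAbove L := ⟨1, fun l hl => hl.2.1⟩
  obtain ⟨m, hm⟩ : ∃ m, m = sSup L := ⟨_, rfl⟩
  have hm0 : 0 ≤ m := by rw [hm]; exact le_csSup hLb hL0
  have hm1 : m ≤ 1 := by rw [hm]; exact csSup_le ⟨0, hL0⟩ (fun l hl => hl.2.1)
  have hmL : ∀ x, m * qf A x ≤ qf s x := by
    intro x
    rcases (qf_nonneg hAn x).eq_or_lt with h | h
    · rw [← h, mul_zero]
      exact qf_nonneg hsn x
    · rw [← le_div_iff₀ h, hm]
      exact csSup_le ⟨0, hL0⟩ (fun l hl => by
        rw [le_div_iff₀ h]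
        exact hl.2.2 x)
  have hm2 : m = 1 := by
    by_contra hne
    have hlt : m < 1 := lt_of_le_of_ne hm1 hne
    obtain ⟨k, hk0, hk2, hk3⟩ := boot m hm0 hlt
    have h1 := upper m k hm0 hk0 hk2 hmL
    have h2 := lower m k hm0 hk0 hmL h1
    have h3 : m < Real.sqrt ((1 + m) / (1 + k)) := by
      apply Real.lt_sqrt_of_sq_lt
      rw [lt_div_iff₀ (by positivity)]
      exact hk3
    have h4 : min (Real.sqrt ((1 + m) / (1 + k))) 1 ∈ L := by
      refine ⟨le_min (Real.sqrt_nonneg _) zero_le_one, min_le_right _ _, fun x => ?_⟩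
      exact (mul_le_mul_of_nonneg_right (min_le_left _ _) (qf_nonneg hAn x)).trans (h2 x)
    have h5 := le_csSup hLb h4
    rw [← hm] at h5
    have h6 : m < min (Real.sqrt ((1 + m) / (1 + k))) 1 := lt_min h3 hlt
    linarith
  have low : ∀ x, qf A x ≤ qf s x := by
    intro x
    have := hmL x
    rwa [hm2, one_mul] at this
  have up : ∀ x, qf s x ≤ qf A x := by
    intro x
    have := upper 1 1 zero_le_one one_pos (by norm_num) (fun x => by
      rw [one_mul]; exact low x) x
    rwa [one_mul] at this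
  have hsA : s = A := le_antisymm (le_of_qf hssa hAsa up) (le_of_qf hAsa hssa low)
  refine ⟨hsA, ?_⟩
  rw [← hQ]
  apply le_antisymm hQA
  apply le_of_qf hAsa hQsa
  intro x
  have h1 := i3 x
  have h2 := i0 x
  rw [hsA] at h1 h2
  have h3 := i1 x
  have h4 := qf_nonneg hQn x
  rcases (qf_nonneg hAn x).eq_or_lt with h | h
  · rw [← h]
    exact h4
  · have h5 : qf A x ≤ qf A (W x) := by
      by_contra hcon
      push Not at hcon
      nlinarith
    linarith

/-- The isometric factor `V` of the canonical polar decomposition `T = V |T|`. -/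
noncomputable def polarFactor (T : H →L[ℂ] H) : H →L[ℂ] H :=
  Classical.choose (exists_isPolarFactor T)

lemma polarFactor_spec (T : H →L[ℂ] H) : IsPolarFactor T (polarFactor T) :=
  Classical.choose_spec (exists_isPolarFactor T)

/-- The Aluthge transform `Δ(T) = |T|^{1/2} V |T|^{1/2}`. -/
noncomputable def aluthge (T : H →L[ℂ] H) : H →L[ℂ] H :=
  CFC.sqrt (CFC.abs T) * polarFactor T * CFC.sqrt (CFC.abs T)

/-- The mean transform `(T + |T| V) / 2`. -/
noncomputable def meanTransform (T : H →L[ℂ] H) : H →L[ℂ] H :=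
  (1 / 2 : ℂ) • (T + CFC.abs T * polarFactor T)

/-- The mean-Aluthge transform: the mean transform of the Aluthge transform. -/
noncomputable def meanAluthge (T : H →L[ℂ] H) : H →L[ℂ] H :=
  meanTransform (aluthge T)

/-- `T` is quasi-normal if it commutes with `T* T`. -/
def IsQuasiNormal (T : H →L[ℂ] H) : Prop :=
  T * (star T * T) = star T * T * T

/-- If `V |T|^{1/2} = |T|^{1/2} V` on the range of `|T|`, the commutation holds everywhere. -/
lemma comm_of_comm_mul {T V : H →L[ℂ] H} (h : IsPolarFactor T V)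
    (h1 : (V * CFC.sqrt (CFC.abs T) - CFC.sqrt (CFC.abs T) * V) * CFC.abs T = 0) :
    V * CFC.sqrt (CFC.abs T) = CFC.sqrt (CFC.abs T) * V := by
  have haa : CFC.sqrt (CFC.abs T) * CFC.sqrt (CFC.abs T) = CFC.abs T :=
    CFC.sqrt_mul_sqrt_self _ (CFC.abs_nonneg T)
  rw [← sub_eq_zero]
  apply h.eq_zero h1
  intro x hx
  have h2 : V x = 0 := (h.2.1 x).2 hx
  have h3 : CFC.sqrt (CFC.abs T) x = 0 := by
    have h4 : ‖CFC.sqrt (CFC.abs T) x‖ ^ 2 = 0 := by
      rw [← qf_star_mul, sqrt_sa, haa, qf, (abs_apply_eq_zero T x).2 hx, inner_zero_left]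
      rfl
    exact norm_eq_zero.1 (pow_eq_zero_iff (two_ne_zero) |>.1 h4)
  rw [sub_apply, mul_apply_eq_comp, mul_apply_eq_comp, h2, h3, map_zero, map_zero, sub_zero]

lemma quasiNormal_of_comm {T V : H →L[ℂ] H} (h : IsPolarFactor T V)
    (h1 : V * CFC.sqrt (CFC.abs T) = CFC.sqrt (CFC.abs T) * V) : IsQuasiNormal T := by
  have haa : CFC.sqrt (CFC.abs T) * CFC.sqrt (CFC.abs T) = CFC.abs T :=
    CFC.sqrt_mul_sqrt_self _ (CFC.abs_nonneg T)
  have h2 : Commute V (CFC.sqrt (CFC.abs T)) := h1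
  have h3 : Commute V (CFC.abs T) := by
    rw [← haa]
    exact h2.mul_right h2
  have h4 : Commute T (CFC.abs T) := by
    nth_rewrite 1 [h.2.2]
    exact h3.mul_left (Commute.refl _)
  have h5 : Commute T (star T * T) := by
    rw [← CFC.abs_mul_abs T]
    exact h4.mul_right h4
  exact h5

/-- **The fixed points of the mean-Aluthge transform are exactly the quasi-normal operators.** -/
theorem result (H : Type u) [NormedAddCommGroup H] [InnerProductSpace ℂ H] [CompleteSpace H] :
    (∀ T V : H →L[ℂ] H, IsPolarFactor T V ↔ V = polarFactor T) ∧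
    (∀ T : H →L[ℂ] H, meanAluthge T = T ↔ IsQuasiNormal T) := by
  refine ⟨fun T V => ⟨fun h => h.unique (polarFactor_spec T), fun h => h ▸ polarFactor_spec T⟩,
    fun T => ⟨fun hfix => ?_, fun hq => ?_⟩⟩
  · have hV := polarFactor_spec T
    have hW := polarFactor_spec (aluthge T)
    have haa : CFC.sqrt (CFC.abs T) * CFC.sqrt (CFC.abs T) = CFC.abs T :=
      CFC.sqrt_mul_sqrt_self _ (CFC.abs_nonneg T)
    have hfix2 : aluthge T + CFC.abs (aluthge T) * polarFactor (aluthge T) = (2 : ℂ) • T := by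
      nth_rewrite 4 [← hfix]
      rw [meanAluthge, meanTransform, smul_smul]
      norm_num
    obtain ⟨h1, h2⟩ := core T (polarFactor T) (aluthge T) (polarFactor (aluthge T))
      (CFC.abs T) (CFC.sqrt (CFC.abs T)) (CFC.abs (aluthge T)) (CFC.abs_nonneg T)
      (sqrt_sa _) (CFC.abs_nonneg _) haa (CFC.abs_mul_abs T) (CFC.abs_mul_abs _)
      hV.2.2 rfl hW.2.2 hW.initial' hV.initial' hV.initial_sqrt hW.1 hfix2
    -- `T = Δ(T)`
    have h3 : T = aluthge T := by
      rw [← sub_eq_zero, ← CStarRing.star_mul_self_eq_zero_iff]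
      have h4 : star (aluthge T) * T = CFC.abs T * CFC.abs T := by
        nth_rewrite 1 [hW.2.2]
        rw [star_mul, abs_sa, h1, mul_assoc, h2]
      have h5 : star T * aluthge T = CFC.abs T * CFC.abs T := by
        have := congrArg star h4
        rwa [star_mul, star_star, star_mul, abs_sa] at this
      rw [star_sub, sub_mul, mul_sub, mul_sub, h4, h5, ← CFC.abs_mul_abs T,
        ← CFC.abs_mul_abs (aluthge T), h1]
      abel
    apply quasiNormal_of_comm hV
    apply comm_of_comm_mul hV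
    have h4 : (polarFactor T * CFC.sqrt (CFC.abs T) - CFC.sqrt (CFC.abs T) * polarFactor T)
        * CFC.sqrt (CFC.abs T) = 0 := by
      rw [sub_mul, mul_assoc (polarFactor T), haa, ← hV.2.2]
      exact sub_eq_zero.2 h3
    calc (polarFactor T * CFC.sqrt (CFC.abs T) - CFC.sqrt (CFC.abs T) * polarFactor T)
        * CFC.abs T
        = (polarFactor T * CFC.sqrt (CFC.abs T) - CFC.sqrt (CFC.abs T) * polarFactor T)
        * (CFC.sqrt (CFC.abs T) * CFC.sqrt (CFC.abs T)) := by rw [haa]
      _ = 0 := by rw [← mul_assoc, h4, zero_mul]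
  · have hV := polarFactor_spec T
    have haa : CFC.sqrt (CFC.abs T) * CFC.sqrt (CFC.abs T) = CFC.abs T :=
      CFC.sqrt_mul_sqrt_self _ (CFC.abs_nonneg T)
    have h0 : Commute (star T * T) T := hq.symm
    have h1 : Commute (CFC.abs T) T := h0.cfcₙ_nnreal _
    have h2 : Commute (CFC.sqrt (CFC.abs T)) T := h1.cfcₙ_nnreal _
    have h3 : Commute (CFC.sqrt (CFC.abs T)) (CFC.abs T) := by
      nth_rewrite 2 [← haa]
      exact (Commute.refl _).mul_right (Commute.refl _)
    have h4 : polarFactor T * CFC.sqrt (CFC.abs T) = CFC.sqrt (CFC.abs T) * polarFactor T := by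
      apply comm_of_comm_mul hV
      rw [sub_mul, mul_assoc, h3.eq, ← mul_assoc, ← hV.2.2, mul_assoc, ← hV.2.2, h2.eq, sub_self]
    have h5 : aluthge T = T := by
      rw [aluthge, ← h4, mul_assoc, haa, ← hV.2.2]
    have h6 : CFC.abs T * polarFactor T = T := by
      rw [← haa, mul_assoc, ← h4, ← mul_assoc, ← h4, mul_assoc, haa, ← hV.2.2]
    rw [meanAluthge, h5, meanTransform, h6, ← two_smul ℂ T, smul_smul]
    norm_num

end Pool.Agent.Results.MP_3feef6_an.FixedPoints
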